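import Pool.Agent.Helper39.SI.P

/-!
# A two-generator group whose spheres are thinly connected to infinity

We construct an infinite group `G` generated by two elements such that, in the Cayley graph, the
proportion `r n` of the elements of the sphere of radius `n` which are straightly connected to
infinity satisfies `liminf r n = 0`.
-/

namespace Pool.Agent.Results.MP_f4297e_al.LiminfZero

open Pool.Agent.Helper39.SI Filter

/-- The (undirected, simple) Cayley graph of a group `G` with respect to a finite set `S`: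
`x` and `y` are adjacent iff they are distinct and `y = x * s` or `x = y * s` for some `s ∈ S`. -/
def cayley (G : Type) [Group G] (S : Finset G) : SimpleGraph G :=
  SimpleGraph.fromRel (fun x y => ∃ s ∈ S, y = x * s)

/-- The sphere of radius `n` around `o`. -/
def sphere {V : Type} (X : SimpleGraph V) (o : V) (n : ℕ) : Set V := {v | X.dist o v = n}

/-- The vertices of the sphere of radius `n` around `o` which are straightly connected to
infinity. -/
def straight {V : Type} (X : SimpleGraph V) (o : V) (n : ℕ) : Set V :=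
  {v | ∃ f : ℕ → V, f 0 = v ∧ (∀ k, X.Adj (f k) (f (k + 1))) ∧ ∀ k, X.dist o (f k) = n + k}

/-- The proportion of vertices of the sphere which are straightly connected to infinity. -/
noncomputable def ratio {V : Type} (X : SimpleGraph V) (o : V) (n : ℕ) : ℝ :=
  ((straight X o n).ncard : ℝ) / ((sphere X o n).ncard : ℝ)

section

variable {R : Type} [CommRing R] [Algebra (ZMod 2) R] (D : Dat R)

/-- the subgroup generated by the two generators -/
noncomputable def HH : Subgroup (W D) := Subgroup.closure {lt D (true, false), lt D (true, true)}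

theorem gen_mem (b : Bool) : lt D (true, b) ∈ HH D := by
  apply Subgroup.subset_closure
  cases b
  · exact Or.inl rfl
  · exact Or.inr rfl

theorem lt_mem (x : Bool × Bool) : lt D x ∈ HH D := by
  obtain ⟨d, b⟩ := x
  cases d
  · rw [← lt_inv]
    exact inv_mem (gen_mem D b)
  · exact gen_mem D b

theorem ev_mem (w : List (Bool × Bool)) : ev D w ∈ HH D := by
  induction w with
  | nil => exact one_mem _
  | cons x w ih => exact mul_mem ih (lt_mem D x)

/-- the generators as elements of the subgroup -/
noncomputable def gH (b : Bool) : HH D := ⟨lt D (true, b), gen_mem D b⟩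

open Classical in
/-- the generating set -/
noncomputable def SS : Finset (HH D) := {gH D false, gH D true}

/-- evaluation in the subgroup -/
noncomputable def evH (w : List (Bool × Bool)) : HH D := ⟨ev D w, ev_mem D w⟩

theorem gH_mem (b : Bool) : gH D b ∈ SS D := by
  unfold SS
  cases b <;> simp

theorem adj_word (w : List (Bool × Bool)) (x : Bool × Bool) :
    (cayley (HH D) (SS D)).Adj (evH D w) (evH D (x :: w)) := by
  refine (SimpleGraph.fromRel_adj _ _ _).2 ⟨?_, ?_⟩
  · intro h
    have h1 := congrArg (fun z : HH D => z.1.p) h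
    simp only [evH] at h1
    rw [ev_cons_p] at h1
    have := sg_cases x.1
    omega
  · obtain ⟨d, b⟩ := x
    cases d
    · right
      refine ⟨gH D b, gH_mem D b, ?_⟩
      apply Subtype.ext
      change ev D w = ev D ((false, b) :: w) * lt D (true, b)
      rw [ev_cons, ← lt_inv, inv_mul_cancel_right]
    · left
      exact ⟨gH D b, gH_mem D b, Subtype.ext rfl⟩

theorem adj_letter (x y : HH D) (h : (cayley (HH D) (SS D)).Adj x y) :
    ∃ l : Bool × Bool, y.1 = x.1 * lt D l := by
  have h2 := ((SimpleGraph.fromRel_adj _ _ _).1 h).2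
  have hS : ∀ s ∈ SS D, ∃ b, s = gH D b := by
    intro s hs
    unfold SS at hs
    simp only [Finset.mem_insert, Finset.mem_singleton] at hs
    rcases hs with h | h
    · exact ⟨_, h⟩
    · exact ⟨_, h⟩
  rcases h2 with ⟨s, hs, h3⟩ | ⟨s, hs, h3⟩
  · obtain ⟨b, rfl⟩ := hS s hs
    exact ⟨(true, b), by rw [h3]; rfl⟩
  · obtain ⟨b, rfl⟩ := hS s hs
    refine ⟨(false, b), ?_⟩
    rw [h3, ← lt_inv]
    change y.1 = y.1 * lt D (true, b) * (lt D (true, b))⁻¹
    rw [mul_inv_cancel_right]

theorem walk_word (w : List (Bool × Bool)) :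
    ∃ p : (cayley (HH D) (SS D)).Walk 1 (evH D w), p.length = w.length := by
  induction w with
  | nil => exact ⟨SimpleGraph.Walk.nil, rfl⟩
  | cons x w ih =>
    obtain ⟨p, hp⟩ := ih
    refine ⟨p.concat (adj_word D w x), ?_⟩
    rw [SimpleGraph.Walk.length_concat, hp]
    rfl

theorem dist_le_word (w : List (Bool × Bool)) :
    (cayley (HH D) (SS D)).dist 1 (evH D w) ≤ w.length := by
  obtain ⟨p, hp⟩ := walk_word D w
  rw [← hp]
  exact SimpleGraph.dist_le p

theorem word_walk {a b : HH D} (p : (cayley (HH D) (SS D)).Walk a b) :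
    ∃ w, w.length = p.length ∧ b.1 = a.1 * ev D w := by
  induction p with
  | nil => exact ⟨[], rfl, by simp⟩
  | cons h p ih =>
    obtain ⟨w, h1, h2⟩ := ih
    obtain ⟨l, hl⟩ := adj_letter D _ _ h
    refine ⟨w ++ [l], ?_, ?_⟩
    · simp [h1]
    · rw [h2, hl, ev_append, ev_cons, ev_nil, one_mul, mul_assoc]

theorem exists_word (h : HH D) : ∃ w, evH D w = h := by
  have key : ∀ g (hg : g ∈ HH D), ∃ w, ev D w = g := by
    intro g hg
    unfold HH at hg
    induction hg using Subgroup.closure_induction_right with
    | one => exact ⟨[], rfl⟩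
    | mul_right x hx y hy ih =>
      obtain ⟨w, hw⟩ := ih
      rcases hy with rfl | rfl
      · exact ⟨(true, false) :: w, by rw [ev_cons, hw]⟩
      · exact ⟨(true, true) :: w, by rw [ev_cons, hw]⟩
    | mul_inv_cancel x hx y hy ih =>
      obtain ⟨w, hw⟩ := ih
      rcases hy with rfl | rfl
      · exact ⟨(false, false) :: w, by rw [ev_cons, hw, lt_inv]⟩
      · exact ⟨(false, true) :: w, by rw [ev_cons, hw, lt_inv]⟩
  obtain ⟨w, hw⟩ := key h.1 h.2
  exact ⟨w, Subtype.ext hw⟩

theorem reach (h : HH D) : (cayley (HH D) (SS D)).Reachable 1 h := by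
  obtain ⟨w, rfl⟩ := exists_word D h
  obtain ⟨p, -⟩ := walk_word D w
  exact ⟨p⟩

theorem conn : (cayley (HH D) (SS D)).Connected := by
  rw [SimpleGraph.connected_iff]
  refine ⟨fun a b => (reach D a).symm.trans (reach D b), ⟨1⟩⟩

theorem dist_word (h : HH D) :
    ∃ w, evH D w = h ∧ w.length = (cayley (HH D) (SS D)).dist 1 h := by
  obtain ⟨p, hp⟩ := (reach D h).exists_walk_length_eq_dist
  obtain ⟨w, h1, h2⟩ := word_walk D p
  refine ⟨w, Subtype.ext ?_, by rw [h1, hp]⟩
  rw [h2]
  exact (one_mul _).symm

theorem closure_SS : Subgroup.closure (SS D : Set (HH D)) = ⊤ := by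
  rw [eq_top_iff]
  intro h _
  obtain ⟨w, rfl⟩ := exists_word D h
  induction w with
  | nil => exact one_mem _
  | cons x w ih =>
    have hx : ∀ b, gH D b ∈ Subgroup.closure (SS D : Set (HH D)) := fun b =>
      Subgroup.subset_closure (gH_mem D b)
    obtain ⟨d, b⟩ := x
    cases d
    · have h1 : evH D ((false, b) :: w) = evH D w * (gH D b)⁻¹ := by
        apply Subtype.ext
        change ev D w * lt D (false, b) = ev D w * (lt D (true, b))⁻¹
        rw [lt_inv]
      rw [h1]
      exact mul_mem (ih trivial) (inv_mem (hx b))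
    · have h1 : evH D ((true, b) :: w) = evH D w * gH D b := Subtype.ext rfl
      rw [h1]
      exact mul_mem (ih trivial) (hx b)

theorem infinite_HH : Infinite (HH D) := by
  refine Infinite.of_injective (fun n : ℕ => evH D (List.replicate n (true, false))) ?_
  intro m n h
  have h1 := congrArg (fun z : HH D => z.1.p) h
  simp only [evH] at h1
  rw [ev_rep_true, ev_rep_true] at h1
  have h2 : (m : ℤ) = (n : ℤ) := h1
  exact_mod_cast h2

theorem sphere_sub (n : ℕ) : sphere (cayley (HH D) (SS D)) 1 n ⊆
    (fun v : List.Vector (Bool × Bool) n => evH D v.1) '' Set.univ := by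
  intro h hh
  obtain ⟨w, h1, h2⟩ := dist_word D h
  refine ⟨⟨w, h2.trans hh⟩, trivial, h1⟩

theorem sphere_finite (n : ℕ) : (sphere (cayley (HH D) (SS D)) 1 n).Finite :=
  (Set.finite_univ.image _).subset (sphere_sub D n)

theorem sphere_card (n : ℕ) : (sphere (cayley (HH D) (SS D)) 1 n).ncard ≤ 4 ^ n := by
  refine (Set.ncard_le_ncard (sphere_sub D n) (Set.finite_univ.image _)).trans ?_
  refine (Set.ncard_image_le Set.finite_univ).trans ?_
  rw [Set.ncard_univ, Nat.card_eq_fintype_card, card_vector]
  simp

theorem straight_sub_sphere {V : Type} (X : SimpleGraph V) (o : V) (n : ℕ) :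
    straight X o n ⊆ sphere X o n := by
  rintro v ⟨f, h1, -, h3⟩
  have := h3 0
  rw [h1] at this
  exact this

/-- The powers of the generator without toggle form a geodesic ray. -/
theorem ray_dist (n : ℕ) :
    (cayley (HH D) (SS D)).dist 1 (evH D (List.replicate n (true, false))) = n := by
  apply le_antisymm
  · have := dist_le_word D (List.replicate n (true, false))
    simpa using this
  · obtain ⟨w, h1, h2⟩ := dist_word D (evH D (List.replicate n (true, false)))
    rw [← h2]
    have h3 : (ev D w).p = n := by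
      have h4 := congrArg (fun z : HH D => z.1.p) h1
      simp only [evH] at h4
      rw [ev_rep_true] at h4
      exact h4
    rw [ev_p] at h3
    have h5 := bounds (dr w)
    have h6 := range_le_length (dr w)
    have h7 : (dr w).length = w.length := by simp
    omega

theorem straight_nonempty (n : ℕ) : (straight (cayley (HH D) (SS D)) 1 n).Nonempty := by
  refine ⟨evH D (List.replicate n (true, false)),
    fun m => evH D (List.replicate (n + m) (true, false)), rfl, ?_, ?_⟩
  · intro m
    have h1 := adj_word D (List.replicate (n + m) (true, false)) (true, false)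
    rw [← List.replicate_succ] at h1
    exact h1
  · intro m
    exact ray_dist D (n + m)

open Classical in
theorem SS_card : (SS D).card = 2 := by
  unfold SS
  rw [Finset.card_pair]
  intro h
  have h1 := congrArg (fun z : HH D => z.1.u 1) h
  simp [gH, lt] at h1

theorem straight_word (n : ℕ) (v : HH D) (hv : v ∈ straight (cayley (HH D) (SS D)) 1 n) (M : ℕ) :
    ∃ w x, evH D w = v ∧ w.length = n ∧ x.length = M ∧
      (x ++ w).length ≤ (cayley (HH D) (SS D)).dist 1 (evH D (x ++ w)) := by
  obtain ⟨f, h1, h2, h3⟩ := hv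
  obtain ⟨w, hw1, hw2⟩ := dist_word D v
  have hwn : w.length = n := by
    rw [hw2, ← h1, h3 0]; rfl
  have key : ∀ M, ∃ x : List (Bool × Bool), x.length = M ∧ evH D (x ++ w) = f M := by
    intro M
    induction M with
    | zero => exact ⟨[], rfl, by rw [h1, ← hw1]; rfl⟩
    | succ M ih =>
      obtain ⟨x, hx1, hx2⟩ := ih
      obtain ⟨l, hl⟩ := adj_letter D _ _ (h2 M)
      refine ⟨l :: x, by simp [hx1], Subtype.ext ?_⟩
      rw [hl, ← hx2]
      rfl
  obtain ⟨x, hx1, hx2⟩ := key M
  refine ⟨w, x, hw1, hwn, hx1, ?_⟩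
  rw [hx2, h3 M, List.length_append, hx1, hwn]
  omega

end

theorem tn_append (α β : List Bool) : tn β ≤ tn (α ++ β) := by
  induction α with
  | nil => exact le_rfl
  | cons d α ih =>
    refine ih.trans ?_
    rw [List.cons_append]
    cases h : α ++ β with
    | nil => simp [tn]
    | cons c γ =>
      simp only [tn, tf]
      omega

theorem straight_card (i n : ℕ)
    (hn : n ≤ ee i + pC (kk i) (Ds kk i)) :
    (straight (cayley (HH (DD kk ee)) (SS (DD kk ee))) 1 n).ncard
      ≤ 2 ^ (n + 1) * (n + 1) ^ (Ds kk (i + 1) + 2) := by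
  have hsub : straight (cayley (HH (DD kk ee)) (SS (DD kk ee))) 1 n ⊆
      (evH (DD kk ee)) '' (Gw n (Ds kk (i + 1) + 2) : Set (List (Bool × Bool))) := by
    intro v hv
    obtain ⟨w, x, h1, h2, h3, h4⟩ := straight_word (DD kk ee) n v hv
      (4 * Qs ee (i + 1) + Ds kk (i + 1) + 1)
    refine ⟨w, ?_, h1⟩
    have hg : Geod (DD kk ee) (x ++ w) := by
      intro w' hw'
      refine h4.trans ?_
      have : evH (DD kk ee) (x ++ w) = evH (DD kk ee) w' := Subtype.ext hw'.symm
      rw [this]
      exact dist_le_word _ w'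
    have hs := slack kk_strictMono.injective ee_ne (i + 1) (x ++ w) hg
      (by rw [List.length_append]; omega)
      (by
        intro j hj
        have h5 := kk_strictMono.monotone hj
        have h6 := kk_succ i
        rw [List.length_append]
        omega)
    have h7 : tn (dr w) ≤ Ds kk (i + 1) + 2 := by
      refine le_trans ?_ hs
      have := tn_append (dr x) (dr w)
      simpa [dr, List.map_append] using this
    have h8 := mem_Gw w _ h7
    rw [h2] at h8
    exact h8
  refine (Set.ncard_le_ncard hsub ((Gw n _).finite_toSet.image _)).trans ?_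
  refine (Set.ncard_image_le (Gw n _).finite_toSet).trans ?_
  rw [Set.ncard_coe_finset]
  exact card_Gw n _

theorem main_step (i : ℕ) : ∃ n, i ≤ n ∧
    (i + 1) * (straight (cayley (HH (DD kk ee)) (SS (DD kk ee))) 1 n).ncard
      < (sphere (cayley (HH (DD kk ee)) (SS (DD kk ee))) 1 n).ncard := by
  classical
  by_contra hcon
  push Not at hcon
  set X := cayley (HH (DD kk ee)) (SS (DD kk ee)) with hX
  set N := ee i + pC (kk i) (Ds kk i) with hN
  obtain ⟨E, hE1, hE2⟩ := ball_lower (k := kk) (e := ee) kk_strictMono.injective ee_ne i (ee i)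
    (Ds kk (i + 1) + 2 + 1) le_rfl
  have hfin : ∀ n, (sphere X 1 n).Finite := fun n => sphere_finite (DD kk ee) n
  have hsub : E ⊆ ((Finset.range (N + 1)).biUnion (fun n => (hfin n).toFinset)).image
      Subtype.val := by
    intro g hg
    obtain ⟨w, h1, h2⟩ := hE2 g hg
    rw [Finset.mem_image]
    refine ⟨evH (DD kk ee) w, ?_, h2⟩
    rw [Finset.mem_biUnion]
    refine ⟨X.dist 1 (evH (DD kk ee) w), ?_, ?_⟩
    · rw [Finset.mem_range]
      have h3 := dist_le_word (DD kk ee) w
      rw [h1, ← pC_eq] at h3
      exact Nat.lt_succ_of_le h3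
    · rw [Set.Finite.mem_toFinset]
      exact rfl
  have hcard : E.card ≤ ∑ n ∈ Finset.range (N + 1), (sphere X 1 n).ncard := by
    refine (Finset.card_le_card hsub).trans (Finset.card_image_le.trans ?_)
    refine Finset.card_biUnion_le.trans ?_
    refine Finset.sum_le_sum fun n _ => ?_
    rw [Set.ncard_eq_toFinset_card _ (hfin n)]
  have hterm : ∀ n ∈ Finset.range (N + 1), (sphere X 1 n).ncard ≤
      (if n < i then 4 ^ n else 0) + (i + 1) * (2 ^ (n + 1) * (n + 1) ^ (Ds kk (i + 1) + 2)) := by
    intro n hn
    have hn' : n ≤ N := Nat.lt_succ_iff.1 (Finset.mem_range.1 hn)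
    by_cases h : n < i
    · rw [if_pos h]
      have := sphere_card (DD kk ee) n
      exact this.trans (Nat.le_add_right _ _)
    · rw [if_neg h, zero_add]
      refine (hcon n (not_lt.1 h)).trans ?_
      exact Nat.mul_le_mul_left _ (straight_card i n hn')
  have hsum1 : ∑ n ∈ Finset.range (N + 1), (if n < i then 4 ^ n else 0) ≤ 4 ^ i := by
    rw [← Finset.sum_filter]
    calc ∑ n ∈ (Finset.range (N + 1)).filter (fun n => n < i), 4 ^ n
        ≤ ∑ n ∈ Finset.range i, 4 ^ n := by
          refine Finset.sum_le_sum_of_subset ?_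
          intro n hn
          rw [Finset.mem_filter] at hn
          exact Finset.mem_range.2 hn.2
      _ ≤ 4 ^ i := by
          rw [Nat.geomSum_eq (by norm_num)]
          exact (Nat.div_le_self _ _).trans (Nat.sub_le _ _)
  have htot := hcard.trans (Finset.sum_le_sum hterm)
  rw [Finset.sum_add_distrib, ← Finset.mul_sum] at htot
  have hnum := num_ee i
  rw [← hN] at hnum
  rw [hE1] at htot
  omega

theorem ratio_nonneg {V : Type} (X : SimpleGraph V) (o : V) (n : ℕ) : 0 ≤ ratio X o n := by
  unfold ratio
  positivity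

/-- **There is an infinite group, generated by a set of two elements, whose Cayley graph satisfies
`liminf r n = 0`**, where `r n > 0` is the proportion of the sphere of radius `n` consisting of the
elements straightly connected to infinity. -/
theorem result : ∃ (G : Type) (_ : Group G) (S : Finset G),
    Infinite G ∧ S.card = 2 ∧ Subgroup.closure (S : Set G) = ⊤ ∧ (cayley G S).Connected ∧
    (∀ n, (sphere (cayley G S) 1 n).Finite) ∧ (∀ n, 0 < ratio (cayley G S) 1 n) ∧
    liminf (fun n : ℕ => ratio (cayley G S) 1 n) atTop = 0 := by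
  refine ⟨HH (DD kk ee), inferInstance, SS (DD kk ee), infinite_HH _, SS_card _, closure_SS _,
    conn _, sphere_finite _, ?_, ?_⟩
  · intro n
    have h1 : 0 < (straight (cayley (HH (DD kk ee)) (SS (DD kk ee))) 1 n).ncard := by
      rw [Set.ncard_pos ((sphere_finite (DD kk ee) n).subset (straight_sub_sphere _ 1 n))]
      exact straight_nonempty (DD kk ee) n
    have h2 := h1.trans_le (Set.ncard_le_ncard (straight_sub_sphere _ 1 n)
      (sphere_finite (DD kk ee) n))
    unfold ratio
    have h3 : (0 : ℝ) < (straight (cayley (HH (DD kk ee)) (SS (DD kk ee))) 1 n).ncard := by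
      exact_mod_cast h1
    have h4 : (0 : ℝ) < (sphere (cayley (HH (DD kk ee)) (SS (DD kk ee))) 1 n).ncard := by
      exact_mod_cast h2
    positivity
  set X := cayley (HH (DD kk ee)) (SS (DD kk ee)) with hX
  have hle1 : ∀ n, ratio X 1 n ≤ 1 := by
    intro n
    unfold ratio
    apply div_le_one_of_le₀
    · exact_mod_cast Set.ncard_le_ncard (straight_sub_sphere X 1 n) (sphere_finite (DD kk ee) n)
    · positivity
  have hbdd : IsBoundedUnder (· ≥ ·) atTop (fun n => ratio X 1 n) :=
    isBoundedUnder_of ⟨0, fun n => ratio_nonneg X 1 n⟩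
  have hcob : IsCoboundedUnder (· ≥ ·) atTop (fun n => ratio X 1 n) :=
    (isBoundedUnder_of ⟨1, fun n => hle1 n⟩ :
      IsBoundedUnder (· ≤ ·) atTop (fun n => ratio X 1 n)).isCoboundedUnder_ge
  apply le_antisymm
  · apply le_of_forall_pos_le_add
    intro ε hε
    rw [zero_add]
    apply liminf_le_of_frequently_le _ hbdd
    rw [frequently_atTop]
    intro m
    obtain ⟨i0, hi0⟩ := exists_nat_one_div_lt hε
    obtain ⟨n, hn1, hn2⟩ := main_step (max m i0)
    refine ⟨n, (le_max_left _ _).trans hn1, ?_⟩
    rw [← hX] at hn2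
    have hpos : 0 < (sphere X 1 n).ncard := lt_of_le_of_lt (Nat.zero_le _) hn2
    have hpos' : (0 : ℝ) < (sphere X 1 n).ncard := by exact_mod_cast hpos
    unfold ratio
    rw [div_le_iff₀ hpos']
    have h3 : ((max m i0 : ℕ) + 1 : ℝ) * (straight X 1 n).ncard ≤ (sphere X 1 n).ncard := by
      exact_mod_cast hn2.le
    have h4 : ((i0 : ℝ) + 1) * (straight X 1 n).ncard ≤ (sphere X 1 n).ncard := by
      refine le_trans ?_ h3
      gcongr
      exact le_max_right m i0
    have h5 : (0 : ℝ) < (i0 : ℝ) + 1 := by positivity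
    have h6 : 1 ≤ ε * ((i0 : ℝ) + 1) := by
      rw [div_lt_iff₀ h5] at hi0
      exact hi0.le
    have h7 : (0 : ℝ) ≤ (straight X 1 n).ncard := by positivity
    calc ((straight X 1 n).ncard : ℝ) = 1 * (straight X 1 n).ncard := by ring
      _ ≤ ε * ((i0 : ℝ) + 1) * (straight X 1 n).ncard := by gcongr
      _ = ε * (((i0 : ℝ) + 1) * (straight X 1 n).ncard) := by ring
      _ ≤ ε * (sphere X 1 n).ncard := by gcongr
  · apply le_liminf_of_le hcob
    exact Eventually.of_forall fun n => ratio_nonneg X 1 n

end Pool.Agent.Results.MP_f4297e_al.LiminfZero
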